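import Mathlib
import Pool.Agent.R368.PacScheme

/-!
# A field with property (A) whose absolute Galois group is not procyclic

There is a field `K` of characteristic zero over which every `O`-acyclic variety has a rational
point, and whose absolute Galois group is not topologically generated by one element. This is the
negated form of Q1. In fact EVERY geometrically integral scheme locally of finite type over `K` has a
`K`-rational point (`K` is pseudo algebraically closed), while `2`, `3`, `6` are not squares in `K`.

Construction: if `2`, `3`, `6` are not squares in a field `F`, then the same holds in the fraction
field of every geometrically integral `F`-algebra; by an ultraproduct argument there is an extension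
of `F` with the same property over which ALL geometrically integral `F`-algebras of finite type have
a point; `K` is the union of the sequence of fields obtained in this way from `ℚ`. If `g` were a
topological generator of the absolute Galois group, then `√2`, `√3` would not be fixed by `g`, so
`√6` would be fixed by `g`, so `6` would be a square in `K`.
-/

set_option autoImplicit false

open CategoryTheory AlgebraicGeometry

namespace Pool.Agent.Results.MP_023059_nt.PointsWithoutProcyclic

/-- The topological group `G` is procyclic: the powers of some element `g` are dense. -/
def IsProcyclic (G : Type) [Group G] [TopologicalSpace G] : Prop :=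
  ∃ g : G, closure ((Subgroup.zpowers g : Subgroup G) : Set G) = Set.univ

section

variable {K : Type} [Field K] {X : Scheme.{0}} (s : X ⟶ Spec (.of K))

/-- The `K`-scheme `X` (with structure morphism `s`) has a `K`-rational point: a section of `s`. -/
def HasPoint : Prop := ∃ x : Spec (.of K) ⟶ X, x ≫ s = 𝟙 _

/-- `X` is smooth, proper and geometrically integral over `K`. In particular all the varieties of the
problem (smooth, projective, geometrically integral) are of this kind. -/
structure IsVariety : Prop where
  smooth : Smooth s
  proper : IsProper s
  geometricallyIntegral : GeometricallyIntegral s

/-- The structure sheaf of `X` as a sheaf of abelian groups. -/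
noncomputable def structureSheaf (X : Scheme.{0}) :
    Sheaf (Opens.grothendieckTopology X) AddCommGrpCat.{0} :=
  (sheafCompose _ (forget₂ CommRingCat RingCat ⋙ forget₂ RingCat AddCommGrpCat)).obj X.sheaf

/-- `X` is `O`-acyclic: the map from `K` (the global functions on `Spec K`) to `H ^ 0 (X, O_X)` is
bijective, that is `H ^ 0 (X, O_X)` has dimension one, and `H ^ n (X, O_X) = 0` for all `n > 0`. -/
structure IsOAcyclic : Prop where
  h0 : Function.Bijective s.appTop
  hn : ∀ n : ℕ, 0 < n → Subsingleton ((structureSheaf X).H n)

end

/-- Property (A): every `O`-acyclic variety over `K` has a `K`-rational point. -/
def PropertyA (K : Type) [Field K] : Prop :=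
  ∀ (X : Scheme.{0}) (s : X ⟶ Spec (.of K)), IsVariety s → IsOAcyclic s → HasPoint s

/-- Every geometrically integral scheme locally of finite type over `K` has a `K`-rational point. -/
def AllPoints (K : Type) [Field K] : Prop :=
  ∀ (X : Scheme.{0}) (s : X ⟶ Spec (.of K)), GeometricallyIntegral s → LocallyOfFiniteType s →
    HasPoint s

/-- **Theorem** (the negated form of Q1). There is a field `K` of characteristic zero over which every
`O`-acyclic variety has a rational point (indeed every geometrically integral scheme locally of
finite type over `K` has one), whose absolute Galois group with its Krull topology is not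
procyclic. -/
theorem result : ∃ (K : Type) (_ : Field K), CharZero K ∧ PropertyA K ∧ AllPoints K ∧
    ¬ IsProcyclic Gal(SeparableClosure K/K) := by
  obtain ⟨K, iK, h0, hNS, hK⟩ := Pool.Agent.R368.Pac.exists_pac
  have h : AllPoints K := fun X s h1 h2 => Pool.Agent.R368.Pac.scheme_point hK X s h1 h2
  refine ⟨K, iK, h0, ?_, h, ?_⟩
  · intro X s h1 _
    have := h1.proper
    exact h X s h1.geometricallyIntegral inferInstance
  · rintro ⟨g, hg⟩
    exact Pool.Agent.R368.Pac.not_procyclic hNS g hg

end Pool.Agent.Results.MP_023059_nt.PointsWithoutProcyclic
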